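import Pool.Agent.Q44.JQ.StmB

/-!
# Project JQ of helper44, job MOM: the moments and the parity determine the law
-/

set_option autoImplicit false
set_option linter.unusedVariables false
set_option linter.unusedSectionVars false

namespace Pool.Agent.Q81.JQ

open Finset Module Q44.JQ Filter Topology
open Pool.Agent.Q269.SL
open Pool.Agent.Q269.MF (aj gK bet gK_tendsto)
open scoped Classical

/-- lower bound of a product -/
theorem prod_low {κ : Type} (S : Finset κ) (x U L : κ → ℝ) (h0 : ∀ k ∈ S, 0 ≤ x k)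
    (h1 : ∀ k ∈ S, x k ≤ U k) (h2 : ∀ k ∈ S, L k ≤ x k) :
    ∏ k ∈ S, U k - ∑ k ∈ S, (U k - L k) * ∏ k' ∈ S.erase k, U k' ≤ ∏ k ∈ S, x k := by
  induction S using Finset.induction_on with
  | empty => simp
  | insert a S ha ih =>
    have ih' := ih (fun k hk => h0 k (mem_insert_of_mem hk)) (fun k hk => h1 k (mem_insert_of_mem hk))
      (fun k hk => h2 k (mem_insert_of_mem hk))
    rw [prod_insert ha, prod_insert ha, sum_insert ha, erase_insert ha]
    have e1 : ∀ k ∈ S, (U k - L k) * ∏ k' ∈ (insert a S).erase k, U k'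
        = U a * ((U k - L k) * ∏ k' ∈ S.erase k, U k') := by
      intro k hk
      have hne : a ≠ k := fun h => ha (h ▸ hk)
      rw [erase_insert_of_ne hne, prod_insert (fun h => ha (mem_of_mem_erase h))]
      ring
    rw [sum_congr rfl e1, ← mul_sum]
    have a0 := h0 a (mem_insert_self a S)
    have a1 := h1 a (mem_insert_self a S)
    have a2 := h2 a (mem_insert_self a S)
    have p0 : 0 ≤ ∏ k ∈ S, x k := prod_nonneg fun k hk => h0 k (mem_insert_of_mem hk)
    have p1 : ∏ k ∈ S, x k ≤ ∏ k ∈ S, U k :=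
      prod_le_prod (fun k hk => h0 k (mem_insert_of_mem hk))
        (fun k hk => h1 k (mem_insert_of_mem hk))
    have q1 : U a * (∏ k ∈ S, U k - ∑ k ∈ S, (U k - L k) * ∏ k' ∈ S.erase k, U k') ≤
        U a * ∏ k ∈ S, x k := mul_le_mul_of_nonneg_left ih' (a0.trans a1)
    have q2 : (U a - x a) * ∏ k ∈ S, x k ≤ (U a - L a) * ∏ k ∈ S, U k :=
      mul_le_mul (by linarith) p1 p0 (by linarith)
    linarith

section

variable {κ : Type} [Fintype κ]

/-- the hypothesis on the moments -/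
def MomH (N : ℕ) (δ : ℝ) (Ω : Type) [Fintype Ω] (e : Ω → κ → ℕ) : Prop :=
  ∀ m : κ → ℕ, (∀ k, m k ≤ N) →
      |(∑ w, ∏ k, ∏ i ∈ range (m k), ((2 : ℝ) ^ e w k - 2 ^ i)) / Fintype.card Ω -
        ∏ k, (2 : ℝ) ^ (m k * (m k + 1) / 2)| ≤ δ

theorem mean_evc (N : ℕ) (v : κ → ℕ → ℝ) : ∃ C : ℝ, 0 ≤ C ∧
    ∀ (δ : ℝ) (Ω : Type) [Fintype Ω] (e : Ω → κ → ℕ), MomH N δ Ω e →
      |(∑ w, ∏ k, evc 2 N (v k) (e w k)) / Fintype.card Ω -
        ∏ k, ∑ j ∈ range (N + 1), v k j * aj j| ≤ C * δ := by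
  refine ⟨∑ m ∈ Fintype.piFinset (fun _ : κ => range (N + 1)), |∏ k, v k (m k)|,
    sum_nonneg fun _ _ => abs_nonneg _, fun δ Ω _ e he => ?_⟩
  have e1 : ∀ w, ∏ k, evc 2 N (v k) (e w k) =
      ∑ m ∈ Fintype.piFinset (fun _ : κ => range (N + 1)), (∏ k, v k (m k)) *
        ∏ k, ∏ i ∈ range (m k), ((2 : ℝ) ^ e w k - 2 ^ i) := by
    intro w
    have h1 : ∀ k, evc 2 N (v k) (e w k) = ∑ j ∈ range (N + 1), v k j *
        ∏ i ∈ range j, ((2 : ℝ) ^ e w k - 2 ^ i) := by
      intro k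
      rw [evc]
      push_cast
      rfl
    simp only [h1]
    rw [prod_univ_sum]
    exact sum_congr rfl fun m _ => prod_mul_distrib
  have e2 : ∏ k, ∑ j ∈ range (N + 1), v k j * aj j =
      ∑ m ∈ Fintype.piFinset (fun _ : κ => range (N + 1)), (∏ k, v k (m k)) *
        ∏ k, (2 : ℝ) ^ (m k * (m k + 1) / 2) := by
    rw [prod_univ_sum]
    exact sum_congr rfl fun m _ => prod_mul_distrib
  simp only [e1]
  rw [e2, sum_comm, sum_div, ← sum_sub_distrib, sum_mul]
  refine (abs_sum_le_sum_abs _ _).trans (sum_le_sum fun m hm => ?_)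
  rw [← mul_sum, mul_div_assoc, ← mul_sub, abs_mul]
  refine mul_le_mul_of_nonneg_left (he m fun k => ?_) (abs_nonneg _)
  rw [Fintype.mem_piFinset] at hm
  have := mem_range.1 (hm k)
  omega

/-- the indicator between the combinations -/
theorem ind_bd {K e N : ℕ} {l u : ℕ → ℝ}
    (hlu : ∀ s : ℕ, Even s → evc 2 (K + 1) l s ≤ (if s = 0 then (1 : ℝ) else 0) ∧
      (if s = 0 then (1 : ℝ) else 0) ≤ evc 2 (K + 1) u s) (h : K + 1 + e ≤ N) {r : ℕ}
    (hp : (r : ZMod 2) = (e : ZMod 2)) :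
    evc 2 N (shc 2 (K + 1) e l) r ≤ (if r = e then (1 : ℝ) else 0) ∧
      (if r = e then (1 : ℝ) else 0) ≤ evc 2 N (shc 2 (K + 1) e u) r := by
  rw [evc_shc le_rfl (K + 1) e l h, evc_shc le_rfl (K + 1) e u h]
  by_cases h1 : r < e
  · rw [if_pos h1, if_pos h1, if_neg (by omega)]
    exact ⟨le_rfl, le_rfl⟩
  · rw [if_neg h1, if_neg h1]
    have hev : Even (r - e) := by
      rw [← ZMod.natCast_eq_zero_iff_even, Nat.cast_sub (not_lt.1 h1), hp, sub_self]
    obtain ⟨h2, h3⟩ := hlu _ hev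
    by_cases h4 : r = e
    · rw [h4, Nat.sub_self] at h2 h3 ⊢
      rw [if_pos rfl] at h2 h3 ⊢
      have h5 : (∏ i ∈ range e, (((2 : ℕ) : ℝ) ^ e - ((2 : ℕ) : ℝ) ^ i)) / Ge 2 e = 1 :=
        div_self (Ge_pos le_rfl e).ne'
      rw [h5, one_mul, one_mul]
      exact ⟨h2, h3⟩
    · rw [if_neg h4]
      rw [if_neg (by omega)] at h2 h3
      have h5 : 0 ≤ (∏ i ∈ range e, (((2 : ℕ) : ℝ) ^ r - ((2 : ℕ) : ℝ) ^ i)) / Ge 2 e := by
        apply div_nonneg _ (Ge_pos le_rfl e).le
        apply prod_nonneg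
        intro i hi
        rw [sub_nonneg]
        apply pow_le_pow_right₀ (by norm_num)
        have := mem_range.1 hi
        omega
      exact ⟨mul_nonpos_of_nonneg_of_nonpos h5 h2, mul_nonneg h5 h3⟩

theorem val_shc {K e N : ℕ} {v : ℕ → ℝ} {X : ℝ} (h : K + 1 + e ≤ N)
    (hv : ∑ j ∈ range (K + 1 + 1), v j * aj j = X) :
    ∑ j ∈ range (N + 1), shc 2 (K + 1) e v j * aj j = lam2 e * X := by
  have h1 := mom_shc (le_refl 2) (K + 1) e v aj h (aj_add e)
  rw [hv] at h1
  rw [lam2, ← h1]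

theorem card_ind_eq {Ω : Type} [Fintype Ω] (e : Ω → κ → ℕ) (r : κ → ℕ) :
    ((univ.filter fun w => e w = r).card : ℝ) = ∑ w, ∏ k, if e w k = r k then (1 : ℝ) else 0 := by
  rw [card_filter]
  push_cast
  refine sum_congr rfl fun w _ => ?_
  by_cases h : e w = r
  · rw [if_pos h, prod_eq_one]
    intro k _
    rw [if_pos (congrFun h k)]
  · rw [if_neg h]
    obtain ⟨k, hk⟩ := Function.ne_iff.1 h
    rw [prod_eq_zero (mem_univ k)]
    rw [if_neg hk]

theorem mom_par (c : κ → ZMod 2) (r : κ → ℕ) (hr : ∀ k, ((r k : ℕ) : ZMod 2) = c k) (η : ℝ)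
    (hη : 0 < η) : ∃ (M : ℕ) (δ : ℝ), 0 < δ ∧ ∀ (Ω : Type) [Fintype Ω] [Nonempty Ω]
    (e : Ω → κ → ℕ), (∀ w k, ((e w k : ℕ) : ZMod 2) = c k) → MomH M δ Ω e →
    |((univ.filter fun w => e w = r).card : ℝ) / Fintype.card Ω - ∏ k, lawc (c k) (r k)| ≤ η := by
  have hlaw : ∏ k, lawc (c k) (r k) = ∏ k, lam2 (r k) * bet := by
    refine prod_congr rfl fun k _ => ?_
    rw [lawc, if_pos (hr k), law2]
    ring
  rw [hlaw]
  -- choice of `K`
  have hg := gK_tendsto
  have hg' : Tendsto (fun K => gK (K + 1)) atTop (𝓝 bet) := hg.comp (tendsto_add_atTop_nat 1)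
  have t1 : Tendsto (fun K => ∏ k, lam2 (r k) * gK (K + 1)) atTop (𝓝 (∏ k, lam2 (r k) * bet)) :=
    tendsto_finsetProd _ fun k _ => hg'.const_mul _
  have t2 : Tendsto (fun K => cP (fun k => lam2 (r k) * gK (K + 1)) (fun k => lam2 (r k) * gK K))
      atTop (𝓝 (∏ k, lam2 (r k) * bet)) :=
    cP_tendsto (U := fun K k => lam2 (r k) * gK (K + 1)) (Lo := fun K k => lam2 (r k) * gK K)
      (fun k => hg'.const_mul _) (fun k => hg.const_mul _)
  obtain ⟨K0, hK0⟩ := eventually_atTop.1 ((t1.eventually_lt_const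
    (show ∏ k, lam2 (r k) * bet < ∏ k, lam2 (r k) * bet + η / 2 by linarith)).and
    (t2.eventually_const_lt (show ∏ k, lam2 (r k) * bet - η / 2 < ∏ k, lam2 (r k) * bet by linarith)))
  obtain ⟨hu0, hl0⟩ := hK0 (2 * K0 + 1) (by omega)
  set K := 2 * K0 + 1 with hK
  have hodd : Odd K := ⟨K0, rfl⟩
  obtain ⟨l, u, hl, hu, hlu⟩ := two_coef hodd
  set N := K + 1 + ∑ k, r k with hN
  have hrN : ∀ k, K + 1 + r k ≤ N := by
    intro k
    have := single_le_sum (f := r) (fun _ _ => Nat.zero_le _) (mem_univ k)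
    omega
  set uu : κ → ℕ → ℝ := fun k => shc 2 (K + 1) (r k) u with huu
  set ll : κ → ℕ → ℝ := fun k => shc 2 (K + 1) (r k) l with hll
  have vu : ∀ k, ∑ j ∈ range (N + 1), uu k j * aj j = lam2 (r k) * gK (K + 1) := fun k =>
    val_shc (hrN k) hu
  have vl : ∀ k, ∑ j ∈ range (N + 1), ll k j * aj j = lam2 (r k) * gK K := fun k =>
    val_shc (hrN k) hl
  obtain ⟨C, hC, hCm⟩ := mean_evc N uu
  have hD : ∀ k, ∃ C : ℝ, 0 ≤ C ∧ ∀ (δ : ℝ) (Ω : Type) [Fintype Ω] (e : Ω → κ → ℕ), MomH N δ Ω e →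
      |(∑ w, ∏ k', evc 2 N (Function.update uu k (ll k) k') (e w k')) / Fintype.card Ω -
        ∏ k', ∑ j ∈ range (N + 1), Function.update uu k (ll k) k' j * aj j| ≤ C * δ := fun k =>
    mean_evc N (Function.update uu k (ll k))
  choose D hD0 hDm using hD
  set E : ℝ := C + ∑ k, (C + D k) + 1 with hE
  have hEpos : 0 < E := by
    have : 0 ≤ ∑ k, (C + D k) := sum_nonneg fun k _ => add_nonneg hC (hD0 k)
    positivity
  refine ⟨N, η / 2 / E, by positivity, fun Ω _ _ e he hm => ?_⟩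
  have hcard : (0 : ℝ) < Fintype.card Ω := by exact_mod_cast Fintype.card_pos
  have hpar : ∀ w k, ((e w k : ℕ) : ZMod 2) = ((r k : ℕ) : ZMod 2) := fun w k => by
    rw [he, hr]
  have bd : ∀ w k, evc 2 N (ll k) (e w k) ≤ (if e w k = r k then (1 : ℝ) else 0) ∧
      (if e w k = r k then (1 : ℝ) else 0) ≤ evc 2 N (uu k) (e w k) := fun w k =>
    ind_bd hlu (hrN k) (hpar w k)
  have nn : ∀ w k, (0 : ℝ) ≤ (if e w k = r k then (1 : ℝ) else 0) := by
    intro w k
    split_ifs <;> norm_num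
  set δ := η / 2 / E with hδ
  have hδ0 : 0 < δ := by positivity
  have hEδ : E * δ = η / 2 := by rw [hδ]; field_simp
  rw [card_ind_eq]
  -- the products with one changed factor
  have er : ∀ (F : (ℕ → ℝ) → κ → ℝ) (k : κ),
      ∏ k', F (Function.update uu k (ll k) k') k' = F (ll k) k * ∏ k' ∈ univ.erase k, F (uu k') k' := by
    intro F k
    rw [← mul_prod_erase univ _ (mem_univ k), Function.update_self]
    congr 1
    refine prod_congr rfl fun k' hk' => ?_
    rw [Function.update_of_ne (ne_of_mem_erase hk')]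
  have er2 : ∀ (F : (ℕ → ℝ) → κ → ℝ) (k : κ),
      (F (uu k) k - F (ll k) k) * ∏ k' ∈ univ.erase k, F (uu k') k' =
        ∏ k', F (uu k') k' - ∏ k', F (Function.update uu k (ll k) k') k' := by
    intro F k
    rw [er, ← mul_prod_erase univ (fun k' => F (uu k') k') (mem_univ k)]
    ring
  have mu := abs_le.1 (hCm δ Ω e hm)
  have ml : ∀ k, _ := fun k => abs_le.1 (hDm k δ Ω e hm)
  rw [abs_le]
  constructor
  · -- lower bound
    have low : ∀ w, ∏ k, evc 2 N (uu k) (e w k) - ∑ k, (∏ k', evc 2 N (uu k') (e w k') -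
        ∏ k', evc 2 N (Function.update uu k (ll k) k') (e w k')) ≤
        ∏ k, if e w k = r k then (1 : ℝ) else 0 := by
      intro w
      have h1 := prod_low univ (fun k => if e w k = r k then (1 : ℝ) else 0)
        (fun k => evc 2 N (uu k) (e w k)) (fun k => evc 2 N (ll k) (e w k))
        (fun k _ => nn w k) (fun k _ => (bd w k).2) (fun k _ => (bd w k).1)
      refine le_trans (le_of_eq ?_) h1
      congr 1
      refine sum_congr rfl fun k _ => ?_
      exact (er2 (fun v k' => evc 2 N v (e w k')) k).symm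
    have hsum : (∑ w, ∏ k, evc 2 N (uu k) (e w k)) - ∑ k, ((∑ w, ∏ k', evc 2 N (uu k') (e w k')) -
        ∑ w, ∏ k', evc 2 N (Function.update uu k (ll k) k') (e w k')) ≤
        ∑ w, ∏ k, if e w k = r k then (1 : ℝ) else 0 := by
      refine le_trans (le_of_eq ?_) (sum_le_sum fun w _ => low w)
      symm
      rw [sum_sub_distrib]
      congr 1
      rw [sum_comm]
      refine sum_congr rfl fun k _ => ?_
      rw [sum_sub_distrib]
    have hcP : cP (fun k => lam2 (r k) * gK (K + 1)) (fun k => lam2 (r k) * gK K) =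
        (∏ k, ∑ j ∈ range (N + 1), uu k j * aj j) - ∑ k,
          ((∏ k', ∑ j ∈ range (N + 1), uu k' j * aj j) -
            ∏ k', ∑ j ∈ range (N + 1), Function.update uu k (ll k) k' j * aj j) := by
      rw [cP]
      simp only [← vu, ← vl]
      congr 1
      refine sum_congr rfl fun k _ => ?_
      exact er2 (fun v _ => ∑ j ∈ range (N + 1), v j * aj j) k
    have hdiv : (∑ w, ∏ k, evc 2 N (uu k) (e w k)) / Fintype.card Ω -
        ∑ k, ((∑ w, ∏ k', evc 2 N (uu k') (e w k')) / Fintype.card Ω -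
        (∑ w, ∏ k', evc 2 N (Function.update uu k (ll k) k') (e w k')) / Fintype.card Ω) ≤
        (∑ w, ∏ k, if e w k = r k then (1 : ℝ) else 0) / Fintype.card Ω := by
      refine le_trans (le_of_eq ?_) (div_le_div_of_nonneg_right hsum hcard.le)
      rw [sub_div]
      congr 1
      symm
      rw [sum_div]
      refine sum_congr rfl fun k _ => ?_
      rw [sub_div]
    have hks : ∑ k, ((∑ w, ∏ k', evc 2 N (uu k') (e w k')) / Fintype.card Ω -
        (∑ w, ∏ k', evc 2 N (Function.update uu k (ll k) k') (e w k')) / Fintype.card Ω) ≤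
        ∑ k, (((∏ k', ∑ j ∈ range (N + 1), uu k' j * aj j) -
            ∏ k', ∑ j ∈ range (N + 1), Function.update uu k (ll k) k' j * aj j) + (C + D k) * δ) := by
      refine sum_le_sum fun k _ => ?_
      have := (ml k).1
      have := mu.2
      linarith
    rw [sum_add_distrib, ← sum_mul] at hks
    have hfin : C * δ + (∑ k, (C + D k)) * δ ≤ η / 2 := by
      rw [← hEδ, hE]
      nlinarith
    have := mu.1
    linarith
  · -- upper bound
    have up : (∑ w, ∏ k, if e w k = r k then (1 : ℝ) else 0) / Fintype.card Ω ≤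
        (∑ w, ∏ k, evc 2 N (uu k) (e w k)) / Fintype.card Ω := by
      refine div_le_div_of_nonneg_right (sum_le_sum fun w _ => ?_) hcard.le
      exact prod_le_prod (fun k _ => nn w k) (fun k _ => (bd w k).2)
    have h2 := mu.2
    simp only [vu] at h2
    have hfin : C * δ ≤ η / 2 := by
      rw [← hEδ, hE]
      have : 0 ≤ ∑ k, (C + D k) := sum_nonneg fun k _ => add_nonneg hC (hD0 k)
      nlinarith
    linarith

end

theorem t_MOM : S_MOM := by
  intro κ _ c r η hη
  by_cases hr : ∀ k, ((r k : ℕ) : ZMod 2) = c k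
  · obtain ⟨M, δ, hδ, h⟩ := mom_par c r hr η hη
    exact ⟨M, δ, hδ, fun Ω _ _ e he hm => h Ω e he hm⟩
  · push Not at hr
    obtain ⟨k, hk⟩ := hr
    refine ⟨0, 1, one_pos, fun Ω _ _ e he _ => ?_⟩
    have h1 : ∏ k, lawc (c k) (r k) = 0 := by
      apply prod_eq_zero (mem_univ k)
      rw [lawc, if_neg hk]
    have h2 : (univ.filter fun w => e w = r) = ∅ := by
      rw [filter_eq_empty_iff]
      rintro w _ rfl
      exact hk (he w k)
    rw [h1, h2, card_empty, Nat.cast_zero, zero_div, sub_zero, abs_zero]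
    exact hη.le

end Pool.Agent.Q81.JQ
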