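import Pool.Agent.Q81.JQ.PI

/-!
# Project JQ of helper44, job CNT: the number of the solutions of a direct sum
-/

set_option autoImplicit false
set_option linter.unusedVariables false
set_option linter.unusedSectionVars false

namespace Pool.Agent.Q81.JQ

open Finset Module Q44.JQ
open Pool.Agent.Y703.CQ (prs ext)
open scoped Classical

section ind

variable {S : Type} [AddCommGroup S] [Module (ZMod 2) S] [Finite S]

theorem card_ind (m : ℕ) : (Nat.card {f : Fin m → S // LinearIndependent (ZMod 2) f} : ℝ)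
    = ∏ i ∈ range m, ((Nat.card S : ℝ) - 2 ^ i) := by
  have hS : Nat.card S = 2 ^ finrank (ZMod 2) S := by
    rw [Module.natCard_eq_pow_finrank (K := ZMod 2) (V := S)]
    simp
  by_cases hm : m ≤ finrank (ZMod 2) S
  · rw [card_linearIndependent hm, ZMod.card, ← Fin.prod_univ_eq_prod_range, Nat.cast_prod]
    refine prod_congr rfl fun i _ => ?_
    rw [Nat.cast_sub (Nat.pow_le_pow_right (by norm_num) (by have := i.2; omega)), hS]
    push_cast
    rfl
  · push Not at hm
    have h1 : IsEmpty {f : Fin m → S // LinearIndependent (ZMod 2) f} := by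
      refine ⟨fun f => ?_⟩
      have := f.2.fintype_card_le_finrank
      rw [Fintype.card_fin] at this
      omega
    rw [Nat.card_of_isEmpty, Nat.cast_zero]
    symm
    apply prod_eq_zero (mem_range.2 hm)
    rw [hS]
    push_cast
    ring

/-- families which are independent modulo a subspace -/
theorem card_mod (W : Submodule (ZMod 2) S) (m : ℕ) :
    (Nat.card {f : Fin m → S // ∀ c : Fin m → ZMod 2, c ≠ 0 → ∑ b, c b • f b ∉ W} : ℝ)
    = ∏ i ∈ range m, ((Nat.card S : ℝ) - (Nat.card W : ℝ) * 2 ^ i) := by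
  have hiff : ∀ f : Fin m → S, (∀ c : Fin m → ZMod 2, c ≠ 0 → ∑ b, c b • f b ∉ W) ↔
      LinearIndependent (ZMod 2) (fun b => W.mkQ (f b)) := by
    intro f
    rw [Fintype.linearIndependent_iff]
    have h1 : ∀ c : Fin m → ZMod 2, ∑ b, c b • W.mkQ (f b) = 0 ↔ ∑ b, c b • f b ∈ W := by
      intro c
      rw [← Submodule.Quotient.mk_eq_zero W, ← Submodule.mkQ_apply, map_sum]
      simp only [map_smul]
    simp only [h1]
    constructor
    · intro h c hc i
      by_contra h2
      exact h c (fun h3 => h2 (by rw [h3]; rfl)) hc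
    · intro h c hc hW
      exact hc (funext fun i => h c hW i)
  let σ : S ⧸ W → S := Quotient.out
  have hσ : ∀ x, W.mkQ (σ x) = x := fun x => Quotient.out_eq' x
  have hw : ∀ x : S, x - σ (W.mkQ x) ∈ W := by
    intro x
    rw [← Submodule.Quotient.mk_eq_zero W, ← Submodule.mkQ_apply, map_sub, hσ, sub_self]
  have e : {f : Fin m → S // ∀ c : Fin m → ZMod 2, c ≠ 0 → ∑ b, c b • f b ∉ W} ≃
      {f : Fin m → S ⧸ W // LinearIndependent (ZMod 2) f} × (Fin m → W) :=
    { toFun := fun f => (⟨fun b => W.mkQ (f.1 b), (hiff f.1).1 f.2⟩,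
        fun b => ⟨f.1 b - σ (W.mkQ (f.1 b)), hw _⟩)
      invFun := fun g => ⟨fun b => σ (g.1.1 b) + (g.2 b : S), by
        rw [hiff]
        have h2 : (fun b => W.mkQ (σ (g.1.1 b) + (g.2 b : S))) = g.1.1 := by
          funext b
          rw [map_add, hσ]
          have h3 : W.mkQ (g.2 b : S) = 0 := by
            rw [Submodule.mkQ_apply, Submodule.Quotient.mk_eq_zero]
            exact (g.2 b).2
          rw [h3, add_zero]
        rw [h2]
        exact g.1.2⟩
      left_inv := by
        intro f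
        apply Subtype.ext
        funext b
        simp only
        abel
      right_inv := by
        intro g
        have h2 : ∀ b, W.mkQ (σ (g.1.1 b) + (g.2 b : S)) = g.1.1 b := by
          intro b
          rw [map_add, hσ]
          have h3 : W.mkQ (g.2 b : S) = 0 := by
            rw [Submodule.mkQ_apply, Submodule.Quotient.mk_eq_zero]
            exact (g.2 b).2
          rw [h3, add_zero]
        refine Prod.ext ?_ ?_
        · apply Subtype.ext
          funext b
          exact h2 b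
        · funext b
          apply Subtype.ext
          simp only
          rw [h2 b]
          abel }
  have : Finite (S ⧸ W) := Finite.of_surjective _ W.mkQ_surjective
  rw [Nat.card_congr e, Nat.card_prod, Nat.card_fun, Nat.card_eq_fintype_card (α := Fin m),
    Fintype.card_fin]
  push_cast
  rw [card_ind]
  have h4 : (Nat.card S : ℝ) = Nat.card W * Nat.card (S ⧸ W) := by
    rw [Submodule.card_eq_card_quotient_mul_card W]
    push_cast
    ring
  rw [h4]
  have h5 : ∀ i ∈ range m, ((Nat.card W : ℝ) * Nat.card (S ⧸ W) - (Nat.card W : ℝ) * 2 ^ i)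
      = (Nat.card W : ℝ) * (Nat.card (S ⧸ W) - 2 ^ i) := fun i _ => by ring
  rw [prod_congr rfl h5, prod_mul_distrib, prod_const, card_range]
  ring

end ind

section one

variable {s V U ι : Type} [Fintype s] [AddCommGroup V] [Module (ZMod 2) V] [Fintype U] [Fintype ι]
  [LinearOrder ι]

theorem tor_mem {P : Type} [Fintype P] (D : Dj s V) {ρ : s → ZMod 2} (hD : D.Ok ρ)
    (N : P → P → ZMod 2) (h : P → s → ZMod 2) (hh : ∑ p, h p = ρ) (x : V) :
    ((fun t => D.T (Pi.single t 1) x), (fun _ => x)) ∈ Sel D N h := by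
  rw [Sel, Submodule.mem_inf, Submodule.mem_comap, LinearMap.mem_ker]
  constructor
  · have h1 : clL h ((fun t => D.T (Pi.single t 1) x), (fun _ : P => x))
        = ((fun t => D.T (Pi.single t 1) x), (fun t => ρ t • x)) := by
      refine Prod.ext rfl ?_
      funext t
      simp only [clL, LinearMap.coe_mk, AddHom.coe_mk]
      rw [← sum_smul, ← hh, Finset.sum_apply]
    rw [h1]
    exact hD.tor x
  · funext p
    simp only [rowL, LinearMap.coe_mk, AddHom.coe_mk]
    have h1 : ∑ t, h p t • D.T (Pi.single t 1) x = D.T (h p) x := by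
      have h2 : h p = ∑ t, h p t • (Pi.single t (1 : ZMod 2) : s → ZMod 2) := by
        funext t
        simp [Finset.sum_apply, Pi.single_apply]
      conv_rhs => rw [h2]
      rw [map_sum, LinearMap.sum_apply]
      simp only [map_smul, LinearMap.smul_apply]
    rw [h1]
    have h3 : ∀ q, N p q • (x + x) = 0 := fun q => by rw [ZModModule.add_self, smul_zero]
    rw [sum_eq_zero fun q _ => h3 q, zero_add, ZModModule.add_self]
    rfl

/-- a solution which vanishes at the large primes is zero -/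
theorem zero_of (D : Dj s V) {ρ : s → ZMod 2} (hD : D.Ok ρ) (b : Bk s U ι)
    (hb : b.Ok D.s₀ ρ 1) (α : prs (univ : Finset ι) → ZMod 2) (g : (s → V) × (U ⊕ ι → V))
    (hg : rowL D (b.N D.s₀ α) b.h g = 0) (h0 : ∀ i, g.2 (Sum.inr i) = 0) : g = 0 := by
  have hrow : ∀ i, (∑ u, b.C i u • g.2 (Sum.inl u)) + ∑ t, b.hJ i t • g.1 t = 0 := by
    intro i
    have h1 := congrFun hg (Sum.inr i)
    simp only [rowL, LinearMap.coe_mk, AddHom.coe_mk, Fintype.sum_sum_type, h0, add_zero, smul_zero,
      sum_const_zero, map_zero] at h1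
    exact h1
  have hu : ∀ u, g.2 (Sum.inl u) = 0 := by
    intro u
    apply hD.nd
    intro y
    by_contra hne
    obtain ⟨i, hi, hi2⟩ := hb.nd (fun u => D.ω (g.2 (Sum.inl u)) y) (by
      intro h2
      exact hne (congrFun h2 u))
    apply hi2
    have h3 := hrow i
    rw [hi] at h3
    simp only [Pi.zero_apply, zero_smul, sum_const_zero, add_zero] at h3
    have h4 : D.ω (∑ u, b.C i u • g.2 (Sum.inl u)) y = 0 := by rw [h3, map_zero]; rfl
    rw [map_sum, LinearMap.sum_apply] at h4
    rw [← h4]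
    refine sum_congr rfl fun u _ => ?_
    rw [map_smul, LinearMap.smul_apply, smul_eq_mul, mul_comm]
  have ht : ∀ t, g.1 t = 0 := by
    intro t
    have h1 := hb.many (Pi.single t 1)
    have h2 : 0 < (univ.filter fun i => b.hJ i = Pi.single t 1).card := by omega
    obtain ⟨i, hi⟩ := card_pos.1 h2
    rw [mem_filter] at hi
    have h3 := hrow i
    rw [hi.2] at h3
    simp only [hu, smul_zero, sum_const_zero, zero_add] at h3
    rw [sum_eq_single t] at h3
    · rwa [Pi.single_eq_same, one_smul] at h3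
    · intro t' _ ht'
      rw [Pi.single_eq_of_ne ht', zero_smul]
    · intro h
      exact absurd (mem_univ t) h
  refine Prod.ext (funext ht) (funext fun p => ?_)
  rcases p with u | i
  · exact hu u
  · exact h0 i

/-- the solutions which are constant at the large primes -/
noncomputable def Wc (D : Dj s V) (N : U ⊕ ι → U ⊕ ι → ZMod 2) (h : U ⊕ ι → s → ZMod 2) :
    Submodule (ZMod 2) (Sel D N h) where
  carrier := {f | ∀ i j, f.1.2 (Sum.inr i) + f.1.2 (Sum.inr j) = 0}
  add_mem' {f g} hf hg i j := by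
    have h1 := hf i j
    have h2 := hg i j
    show (f.1.2 (Sum.inr i) + g.1.2 (Sum.inr i)) + (f.1.2 (Sum.inr j) + g.1.2 (Sum.inr j)) = 0
    rw [add_add_add_comm, h1, h2, add_zero]
  zero_mem' i j := add_zero _
  smul_mem' a f hf i j := by
    show a • f.1.2 (Sum.inr i) + a • f.1.2 (Sum.inr j) = 0
    rw [← smul_add, hf i j, smul_zero]

theorem card_Wc (D : Dj s V) {ρ : s → ZMod 2} (hD : D.Ok ρ) (b : Bk s U ι)
    (hb : b.Ok D.s₀ ρ 1) (α : prs (univ : Finset ι) → ZMod 2) :
    Nat.card (Wc D (b.N D.s₀ α) b.h) = Nat.card V := by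
  have hι : Nonempty ι := by
    have h1 := hb.many 0
    have h2 : 0 < (univ.filter fun i => b.hJ i = 0).card := by omega
    obtain ⟨i, _⟩ := card_pos.1 h2
    exact ⟨i⟩
  obtain ⟨i₀⟩ := hι
  symm
  refine Nat.card_congr (Equiv.ofBijective
    (fun x : V => (⟨⟨((fun t => D.T (Pi.single t 1) x), (fun _ => x)),
      tor_mem D hD _ _ hb.tot x⟩, fun i j => ZModModule.add_self x⟩ :
        Wc D (b.N D.s₀ α) b.h)) ⟨?_, ?_⟩)
  · intro x y hxy
    have h1 := congrArg (fun f => f.1.1.2 (Sum.inr i₀)) hxy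
    exact h1
  · intro f
    refine ⟨f.1.1.2 (Sum.inr i₀), ?_⟩
    set x := f.1.1.2 (Sum.inr i₀) with hx
    apply Subtype.ext
    apply Subtype.ext
    simp only
    have h1 := tor_mem D hD (b.N D.s₀ α) b.h hb.tot x
    have h2 : (((fun t => D.T (Pi.single t 1) x), (fun _ => x)) : (s → V) × (U ⊕ ι → V)) + f.1.1
        = 0 := by
      apply zero_of D hD b hb α
      · have h3 := (Sel D (b.N D.s₀ α) b.h).add_mem h1 f.1.2
        exact LinearMap.mem_ker.1 (Submodule.mem_inf.1 h3).2
      · intro i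
        exact f.2 i₀ i
    have h4 := add_eq_zero_iff_eq_neg.1 h2
    have h5 : ∀ z : (s → V) × (U ⊕ ι → V), -z = z := fun z => ZModModule.neg_eq_self z
    rw [h5] at h4
    exact h4

end one

section several

theorem mem_Wc_sum {s V U ι : Type} [Fintype s] [AddCommGroup V] [Module (ZMod 2) V] [Fintype U]
    [Fintype ι] (D : Dj s V) (N : U ⊕ ι → U ⊕ ι → ZMod 2) (h : U ⊕ ι → s → ZMod 2) {m : ℕ}
    (c : Fin m → ZMod 2) (f : Fin m → Sel D N h) :
    ∑ b, c b • f b ∈ Wc D N h ↔
      ∀ i j, ∑ b, c b • ((f b).1.2 (Sum.inr i) + (f b).1.2 (Sum.inr j)) = 0 := by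
  have h1 : ∀ i, (∑ b, c b • f b).1.2 (Sum.inr i) = ∑ b, c b • (f b).1.2 (Sum.inr i) := by
    intro i
    let ev : Sel D N h →ₗ[ZMod 2] V := (LinearMap.proj (Sum.inr i)).comp
      ((LinearMap.snd (ZMod 2) (s → V) (U ⊕ ι → V)).comp (Sel D N h).subtype)
    have h2 : ∀ g : Sel D N h, ev g = g.1.2 (Sum.inr i) := fun g => rfl
    rw [← h2, map_sum]
    exact sum_congr rfl fun b _ => map_smul ev (c b) (f b)
  have h3 : ∑ b, c b • f b ∈ Wc D N h ↔
      ∀ i j, (∑ b, c b • f b).1.2 (Sum.inr i) + (∑ b, c b • f b).1.2 (Sum.inr j) = 0 := Iff.rfl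
  rw [h3]
  simp only [h1, smul_add, sum_add_distrib]

variable {s κ : Type} [Fintype s] [Fintype κ] {V : κ → Type} [∀ k, AddCommGroup (V k)]
  [∀ k, Module (ZMod 2) (V k)]

theorem gmd_dif {m : κ → ℕ} {ι : Type} (x : ι → UV V m) :
    GmD V (dif x) ↔ ∀ (k : κ) (c : Fin (m k) → ZMod 2), c ≠ 0 →
      ¬ ∀ i j, ∑ b, c b • (show V k from x i ⟨k, b⟩ + x j ⟨k, b⟩) = 0 := by
  unfold GmD
  refine forall_congr' fun k => forall_congr' fun c => imp_congr_right fun hc => ?_
  let ℓ : UV V m →ₗ[ZMod 2] V k :=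
    { toFun := fun y => ∑ b, c b • (show V k from y ⟨k, b⟩)
      map_add' := fun y y' => by
        rw [← sum_add_distrib]
        exact sum_congr rfl fun b _ => smul_add _ _ _
      map_smul' := fun a y => by
        rw [RingHom.id_apply, smul_sum]
        exact sum_congr rfl fun b _ => smul_comm _ _ _ }
  have hl : ∀ y, ℓ y = ∑ b, c b • (show V k from y ⟨k, b⟩) := fun y => rfl
  constructor
  · rintro ⟨y, hy, hy2⟩ h1
    apply hy2
    rw [← hl]
    have h2 : dif x ≤ LinearMap.ker ℓ := by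
      refine Submodule.span_le.2 ?_
      rintro _ ⟨⟨i, j⟩, rfl⟩
      rw [SetLike.mem_coe, LinearMap.mem_ker, hl]
      exact h1 i j
    exact LinearMap.mem_ker.1 (h2 hy)
  · intro h1
    push Not at h1
    obtain ⟨i, j, hij⟩ := h1
    refine ⟨x i + x j, Submodule.subset_span ⟨(i, j), rfl⟩, ?_⟩
    exact hij

/-- the solutions of the direct sum are the families of solutions -/
noncomputable def eqC {U ι : Type} [Fintype U] [Fintype ι] (t₀ : s) (D : ∀ k, Dj s (V k))
    (m : κ → ℕ) (N : U ⊕ ι → U ⊕ ι → ZMod 2) (h : U ⊕ ι → s → ZMod 2) :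
    {e : (s → UV V m) × (U ⊕ ι → UV V m) // e ∈ Sel (DD t₀ D m) N h ∧
      GmD V (dif fun i => e.2 (Sum.inr i))} ≃
    ∀ k, {f : Fin (m k) → Sel (D k) N h // ∀ c : Fin (m k) → ZMod 2, c ≠ 0 →
      ∑ b, c b • f b ∉ Wc (D k) N h} where
  toFun e k := ⟨fun j => ⟨((fun t => e.1.1 t ⟨k, j⟩), (fun p => e.1.2 p ⟨k, j⟩)),
      (pi_sel t₀ (fun c : (Σ k, Fin (m k)) => D c.1) N h e.1).1 e.2.1 ⟨k, j⟩⟩, fun c hc => by
    rw [mem_Wc_sum]
    exact (gmd_dif _).1 e.2.2 k c hc⟩
  invFun f := ⟨((fun t c => ((f c.1).1 c.2).1.1 t), (fun p c => ((f c.1).1 c.2).1.2 p)),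
    (pi_sel t₀ (fun c : (Σ k, Fin (m k)) => D c.1) N h _).2 fun c => ((f c.1).1 c.2).2, by
      rw [gmd_dif]
      intro k c hc
      have h1 := (f k).2 c hc
      rw [mem_Wc_sum] at h1
      exact h1⟩
  left_inv e := rfl
  right_inv f := rfl

end several

theorem t_CNT : S_CNT := by
  intro s κ _ _ V _ _ _ t₀ ρ D h0 h m U ι _ _ _ b hb α
  have e1 : cnt (DD t₀ D m) b (GmD V) α = Nat.card (∀ k, {f : Fin (m k) →
      Sel (D k) (b.N t₀ α) b.h // ∀ c : Fin (m k) → ZMod 2, c ≠ 0 →
      ∑ b, c b • f b ∉ Wc (D k) (b.N t₀ α) b.h}) :=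
    Nat.card_congr (eqC t₀ D m (b.N t₀ α) b.h)
  rw [e1, Nat.card_pi, Nat.cast_prod]
  refine prod_congr rfl fun k _ => ?_
  rw [card_mod]
  have h2 := card_Wc (D k) (h k) b (by rw [h0]; exact hb) α
  rw [h0] at h2
  rw [h2]

end Pool.Agent.Q81.JQ
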