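import Pool.Agent.Q44.JQ.StmB

/-!
# Project JQ of helper44, job PI: the direct sum of data
-/

set_option autoImplicit false
set_option linter.unusedVariables false

namespace Pool.Agent.Q81.JQ

open Finset Module Q44.JQ
open scoped Classical

section
variable {s A : Type} [Fintype s] [Fintype A] {V : A → Type} [∀ c, AddCommGroup (V c)]
  [∀ c, Module (ZMod 2) (V c)]

theorem pi_om (t₀ : s) (D : ∀ c, Dj s (V c)) (x y : ∀ c, V c) :
    (Dj.pi t₀ D).ω x y = ∑ c, (D c).ω (x c) (y c) := rfl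

theorem pi_T (t₀ : s) (D : ∀ c, Dj s (V c)) (φ : s → ZMod 2) (x : ∀ c, V c) (c : A) :
    (Dj.pi t₀ D).T φ x c = (D c).T φ (x c) := rfl

theorem pi_mem (t₀ : s) (D : ∀ c, Dj s (V c)) (y : (s → ∀ c, V c) × (s → ∀ c, V c)) :
    y ∈ (Dj.pi t₀ D).𝓛 ↔ ∀ c, ((fun t => y.1 t c), (fun t => y.2 t c)) ∈ (D c).𝓛 := Iff.rfl

/-- the components of the subspace of classes -/
noncomputable def eqL (t₀ : s) (D : ∀ c, Dj s (V c)) :
    (Dj.pi t₀ D).𝓛 ≃ ∀ c, (D c).𝓛 where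
  toFun y c := ⟨((fun t => y.1.1 t c), (fun t => y.1.2 t c)), y.2 c⟩
  invFun z := ⟨(fun t c => (z c).1.1 t, fun t c => (z c).1.2 t), fun c => (z c).2⟩
  left_inv y := rfl
  right_inv z := rfl

theorem pi_q (t₀ : s) (D : ∀ c, Dj s (V c)) (y : (s → ∀ c, V c) × (s → ∀ c, V c)) :
    (Dj.pi t₀ D).q y = ∑ c, (D c).q ((fun t => y.1 t c), (fun t => y.2 t c)) := by
  unfold Dj.q
  simp only [pi_om, pi_T]
  rw [sum_add_distrib, sum_comm]
  congr 1
  rw [sum_comm]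

theorem pi_ok [∀ c, Finite (V c)] (t₀ : s) (ρ : s → ZMod 2) (D : ∀ c, Dj s (V c))
    (h0 : ∀ c, (D c).s₀ = t₀) (h : ∀ c, (D c).Ok ρ) : (Dj.pi t₀ D).Ok ρ where
  alt x := by
    rw [pi_om]
    exact sum_eq_zero fun c _ => (h c).alt _
  adj φ x y := by
    rw [pi_om, pi_om, pi_om, mul_sum, ← sum_add_distrib]
    refine sum_congr rfl fun c _ => ?_
    rw [pi_T, pi_T, (h c).adj, h0]
    rfl
  nd x hx := by
    funext c
    refine (h c).nd _ fun y => ?_
    have h1 := hx (Pi.single c y)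
    rw [pi_om, sum_eq_single c] at h1
    · rwa [Pi.single_eq_same] at h1
    · intro c' _ hc
      rw [Pi.single_eq_of_ne hc, map_zero]
    · intro hc
      exact absurd (mem_univ c) hc
  card := by
    rw [Nat.card_congr (eqL t₀ D), Nat.card_pi, Nat.card_pi, ← prod_pow]
    exact prod_congr rfl fun c _ => (h c).card
  sing y hy := by
    rw [pi_q]
    exact sum_eq_zero fun c _ => (h c).sing _ (hy c)
  tor x := by
    rw [pi_mem]
    intro c
    exact (h c).tor (x c)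

theorem pi_row {P : Type} [Fintype P] (t₀ : s) (D : ∀ c, Dj s (V c)) (N : P → P → ZMod 2)
    (h : P → s → ZMod 2) (e : (s → ∀ c, V c) × (P → ∀ c, V c)) (p : P) (c : A) :
    rowL (Dj.pi t₀ D) N h e p c =
      rowL (D c) N h ((fun t => e.1 t c), (fun p => e.2 p c)) p := by
  simp only [rowL, LinearMap.coe_mk, AddHom.coe_mk, Pi.add_apply, Finset.sum_apply,
    Pi.smul_apply, pi_T]

theorem pi_cl {P : Type} [Fintype P] (t₀ : s) (D : ∀ c, Dj s (V c)) (h : P → s → ZMod 2)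
    (e : (s → ∀ c, V c) × (P → ∀ c, V c)) :
    clL h e ∈ (Dj.pi t₀ D).𝓛 ↔
      ∀ c, clL h ((fun t => e.1 t c), (fun p => e.2 p c)) ∈ (D c).𝓛 := by
  rw [pi_mem]
  refine forall_congr' fun c => ?_
  have h1 : ((fun t => (clL h e).1 t c), (fun t => (clL h e).2 t c))
      = clL h ((fun t => e.1 t c), (fun p => e.2 p c)) := by
    refine Prod.ext rfl ?_
    funext t
    simp only [clL, LinearMap.coe_mk, AddHom.coe_mk, Finset.sum_apply, Pi.smul_apply]
  rw [h1]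

theorem pi_sel {P : Type} [Fintype P] (t₀ : s) (D : ∀ c, Dj s (V c)) (N : P → P → ZMod 2)
    (h : P → s → ZMod 2) (e : (s → ∀ c, V c) × (P → ∀ c, V c)) :
    e ∈ Sel (Dj.pi t₀ D) N h ↔
      ∀ c, ((fun t => e.1 t c), (fun p => e.2 p c)) ∈ Sel (D c) N h := by
  have h1 : e ∈ Sel (Dj.pi t₀ D) N h ↔
      clL h e ∈ (Dj.pi t₀ D).𝓛 ∧ rowL (Dj.pi t₀ D) N h e = 0 := by
    rw [Sel, Submodule.mem_inf, Submodule.mem_comap, LinearMap.mem_ker]
  have h2 : ∀ c, ((fun t => e.1 t c), (fun p => e.2 p c)) ∈ Sel (D c) N h ↔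
      clL h ((fun t => e.1 t c), (fun p => e.2 p c)) ∈ (D c).𝓛 ∧
        rowL (D c) N h ((fun t => e.1 t c), (fun p => e.2 p c)) = 0 := by
    intro c
    rw [Sel, Submodule.mem_inf, Submodule.mem_comap, LinearMap.mem_ker]
  rw [h1, pi_cl]
  simp only [h2]
  rw [forall_and]
  refine and_congr_right fun _ => ⟨fun h3 c => ?_, fun h3 => ?_⟩
  · funext p
    rw [← pi_row t₀, h3]
    rfl
  · funext p c
    rw [pi_row, h3]
    rfl

end

theorem t_PI : S_PI := fun s A _ _ V _ _ _ t₀ ρ D h0 h =>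
  ⟨pi_ok t₀ ρ D h0 h, fun P _ N hh e => pi_sel t₀ D N hh e⟩

end Pool.Agent.Q81.JQ
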